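import Pool.Agent.V11185.Delta

/-!
# MP_c0a4b6_co: principal minors of skew-Hermitian plus rank-one Hermitian matrices
-/

set_option autoImplicit false

namespace Pool.Agent.Results.MP_c0a4b6_co.AllValuedFields

open Matrix Pool.Agent.V11185.Delta

/-- **For every valued field with a valuation-preserving involution**, the valuations of the
principal minors of the sum of a skew-Hermitian matrix and a Hermitian matrix of rank one form a
valuated Delta-matroid. -/
theorem result (K : Type) [Field K] [StarRing K] (ν : AddValuation K (WithTop ℝ))
    (hν : ∀ a, ν (star a) = ν a) (n : ℕ) (B C : Matrix (Fin n) (Fin n) K) (hB : Bᴴ = -B)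
    (hC : C.IsHermitian) (hr : C.rank = 1) :
    IsValuatedDelta fun S => ν (minor (B + C) S) := by
  apply main_minor ν hν
  have h : B + C + (B + C)ᴴ = C * ((2 : K) • (1 : Matrix (Fin n) (Fin n) K)) := by
    rw [Matrix.conjTranspose_add, hB, hC.eq, Matrix.mul_smul, Matrix.mul_one, two_smul]
    abel
  rw [h]
  exact (Matrix.rank_mul_le_left _ _).trans hr.le

end Pool.Agent.Results.MP_c0a4b6_co.AllValuedFields
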